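import Pool.Agent.H10.FEW.Stmts

/-!
# FEW, module ONE: triples with a common good pair `(e, M)`
-/

set_option autoImplicit false

namespace Pool.FEW

open Finset Pool.Agent.H98.ABCR Pool.SHA

namespace OneAux

/-- counting by the values of a function -/
lemma card_le_real {α β : Type*} [DecidableEq β] (s : Finset α) (t : Finset β) (f : α → β)
    (hf : ∀ a ∈ s, f a ∈ t) (B : ℝ) (hB : ∀ b ∈ t, ((s.filter (fun a => f a = b)).card : ℝ) ≤ B) :
    (s.card : ℝ) ≤ t.card * B := by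
  rw [Finset.card_eq_sum_card_fiberwise hf, Nat.cast_sum]
  calc ∑ b ∈ t, ((s.filter (fun a => f a = b)).card : ℝ) ≤ ∑ _b ∈ t, B :=
        Finset.sum_le_sum hB
    _ = t.card * B := by rw [Finset.sum_const, nsmul_eq_mul]

lemma om_rad (n : ℕ) : om (rad n) = om n := by
  unfold om rad
  rw [Nat.primeFactors_prod (fun p hp => Nat.prime_of_mem_primeFactors hp)]

/-- the data of one triple -/
structure Dat (k : ℕ) (Y : ℝ) (v : ℕ × ℕ) (p x : Fin k → ℕ) (tt : Fin k → Fin 3) (i0 : Fin 3) :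
    Prop where
  co : ∀ i, coord v i = ∏ j ∈ univ.filter (fun j => tt j = i), p j ^ x j
  ra : ∀ i, rad (coord v i) = ∏ j ∈ univ.filter (fun j => tt j = i), p j
  rr : RR v = ∏ j, p j
  pf : ∀ j, p j ≠ 1 → p j ∈ (nn v).primeFactors ∧ x j = (nn v).factorization (p j)
  yy : (rad (coord v i0) : ℝ) ≤ Y

lemma Dat.one_le {k : ℕ} {Y : ℝ} {v : ℕ × ℕ} {p x : Fin k → ℕ} {tt : Fin k → Fin 3} {i0 : Fin 3}
    (h : Dat k Y v p x tt i0) (j : Fin k) : 1 ≤ p j := by
  by_cases h1 : p j = 1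
  · exact h1.ge
  · exact (Nat.prime_of_mem_primeFactors (h.pf j h1).1).one_lt.le

/-- the numerical factor of a good pair -/
lemma dg {X y σ : ℝ} {e : ℕ} {M : Finset ℕ} (h : GM X y σ e M) (h64 : 64 ≤ y ^ σ) (hy : 1 ≤ y)
    (hσ0 : 0 < σ) (hX : 0 < X) :
    (∏ l ∈ M, (((l - 1) / e : ℕ) : ℝ)) ^ 2 * (y ^ σ) ^ M.card ≤ X ^ (16 * σ) * y ^ (8 * σ) := by
  have hy0 : 0 < y := by linarith only [hy]
  have hg0 : 0 < y ^ σ := by linarith only [h64]
  have he0 : (0 : ℝ) < e := by exact_mod_cast h.e0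
  have h1 : ∀ l ∈ M, (((l - 1) / e : ℕ) : ℝ) ≤ 8 * y ^ σ := by
    intro l hl
    obtain ⟨hlp, -, -, hl8⟩ := h.pr l hl
    have a1 : (((l - 1) / e : ℕ) : ℝ) ≤ ((l - 1 : ℕ) : ℝ) / e := Nat.cast_div_le
    have a2 : ((l - 1 : ℕ) : ℝ) ≤ 8 * y := by
      have : ((l - 1 : ℕ) : ℝ) ≤ (l : ℝ) := by exact_mod_cast Nat.sub_le l 1
      linarith only [this, hl8]
    refine a1.trans ?_
    rw [div_le_iff₀ he0]
    have a3 : y ^ (1 - σ) * y ^ σ = y := by
      rw [← Real.rpow_add hy0, sub_add_cancel, Real.rpow_one]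
    have a4 : y ^ (1 - σ) * y ^ σ ≤ (e : ℝ) * y ^ σ := mul_le_mul_of_nonneg_right h.el hg0.le
    nlinarith only [a2, a3, a4]
  have h2 : ∏ l ∈ M, (((l - 1) / e : ℕ) : ℝ) ≤ (8 * y ^ σ) ^ M.card := by
    calc ∏ l ∈ M, (((l - 1) / e : ℕ) : ℝ) ≤ ∏ _l ∈ M, (8 * y ^ σ) :=
          Finset.prod_le_prod (fun l _ => Nat.cast_nonneg _) h1
      _ = (8 * y ^ σ) ^ M.card := by rw [Finset.prod_const]
  have h3 : (0 : ℝ) ≤ ∏ l ∈ M, (((l - 1) / e : ℕ) : ℝ) :=
    Finset.prod_nonneg (fun l _ => Nat.cast_nonneg _)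
  have h4 : (∏ l ∈ M, (((l - 1) / e : ℕ) : ℝ)) ^ 2 * (y ^ σ) ^ M.card ≤
      ((y ^ σ) ^ 4) ^ M.card := by
    calc (∏ l ∈ M, (((l - 1) / e : ℕ) : ℝ)) ^ 2 * (y ^ σ) ^ M.card ≤
          ((8 * y ^ σ) ^ M.card) ^ 2 * (y ^ σ) ^ M.card :=
          mul_le_mul_of_nonneg_right (pow_le_pow_left₀ h3 h2 2) (pow_nonneg hg0.le _)
      _ = (64 * (y ^ σ) ^ 3) ^ M.card := by
          rw [← pow_mul, mul_comm M.card 2, pow_mul, ← mul_pow]
          ring
      _ ≤ ((y ^ σ) ^ 4) ^ M.card := by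
          apply pow_le_pow_left₀ (by positivity)
          have : (y ^ σ) ^ 4 = y ^ σ * (y ^ σ) ^ 3 := by ring
          rw [this]
          exact mul_le_mul_of_nonneg_right h64 (by positivity)
  refine h4.trans ?_
  have h5 : ((y ^ σ) ^ 4) ^ M.card = Real.exp (4 * σ * ((M.card : ℝ) * Real.log y)) := by
    rw [← pow_mul, Real.rpow_def_of_pos hy0, ← Real.exp_nat_mul]
    congr 1
    push_cast
    ring
  have h6 : X ^ (16 * σ) * y ^ (8 * σ) =
      Real.exp (4 * σ * (4 * Real.log X + 2 * Real.log y)) := by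
    rw [Real.rpow_def_of_pos hX, Real.rpow_def_of_pos hy0, ← Real.exp_add]
    congr 1
    ring
  rw [h5, h6]
  apply Real.exp_le_exp.mpr
  exact mul_le_mul_of_nonneg_left h.cd (by positivity)

/-- one class -/
lemma cls {Ct : ℝ} (hC1 : 1 ≤ Ct) (hT : ∀ (R : ℕ) (F : Finset (ℕ × ℕ)),
    (∀ v ∈ F, IsTri v ∧ RR v = R) → (F.card : ℝ) ≤ Ct ^ (om R + 1)) (hF : S_FCD)
    {k e : ℕ} {M : Finset ℕ} {tt : Fin k → Fin 3} {i0 : Fin 3} {X y σ Y w Φ : ℝ}
    (F : Finset (ℕ × ℕ)) (pf xf : ℕ × ℕ → Fin k → ℕ) (r τ u : Fin k → ℕ)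
    (hw : 1 < w) (h64 : 64 ≤ y ^ σ) (hGM : GM X y σ e M) (hΦ : 1 ≤ Φ) (hX : 1 ≤ X)
    (hnum : ∀ P t : ℕ, 1 ≤ t → w ≤ 2 * (P : ℝ) → (P : ℝ) ≤ X → (P : ℝ) ^ (t - 1) < X →
      (2 * (P : ℝ)) ^ t ≤ X ^ 3 ∧ (t.factorial : ℝ) ≤ Φ)
    (hv : ∀ v ∈ F, IsTri v ∧ (RR v : ℝ) ≤ X ∧ om (nn v) ≤ k ∧ Gd y σ e M v ∧
      Dat k Y v (pf v) (xf v) tt i0 ∧ (∀ j, xf v j % e = r j) ∧
      (∀ j, (if (pf v j : ℝ) < w then pf v j else 0) = τ j) ∧
      (∀ j, (if (pf v j : ℝ) < w then 0 else Nat.log 2 (pf v j)) = u j)) :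
    (F.card : ℝ) ≤ Ct ^ (k + 1) * (4 * Φ * (∏ l ∈ M, (((l - 1) / e : ℕ) : ℝ)) ^ 2 *
      (y ^ σ) ^ M.card * Real.sqrt (X * Y)) := by
  classical
  have hg0 : 0 < y ^ σ := by linarith only [h64]
  have hCt0 : 0 < Ct := by linarith only [hC1]
  rcases F.eq_empty_or_nonempty with hemp | ⟨v0, hv0⟩
  · rw [hemp]
    simp only [Finset.card_empty, Nat.cast_zero]
    positivity
  set T : Finset (Fin k → ℕ) := F.image pf with hTdef
  -- fibres
  have hfib : (F.card : ℝ) ≤ T.card * Ct ^ (k + 1) := by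
    apply card_le_real F T pf (fun a ha => Finset.mem_image_of_mem _ ha)
    intro b _
    have h1 := hT (∏ j, b j) (F.filter (fun a => pf a = b)) (by
      intro v hvm
      rw [Finset.mem_filter] at hvm
      obtain ⟨hvF, hvb⟩ := hvm
      obtain ⟨a1, -, -, -, a5, -⟩ := hv v hvF
      refine ⟨a1, ?_⟩
      rw [a5.rr, hvb])
    rcases (F.filter (fun a => pf a = b)).eq_empty_or_nonempty with he | ⟨v, hvm⟩
    · rw [he]
      simp only [Finset.card_empty, Nat.cast_zero]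
      positivity
    · rw [Finset.mem_filter] at hvm
      obtain ⟨hvF, hvb⟩ := hvm
      obtain ⟨-, -, a3, -, a5, -⟩ := hv v hvF
      refine h1.trans (pow_le_pow_right₀ hC1 ?_)
      have h2 : om (∏ j, b j) = om (nn v) := by
        rw [← hvb, ← a5.rr]
        exact om_rad (nn v)
      rw [h2]
      omega
  -- the primes
  set J : Finset (Fin k) := univ.filter (fun j => τ j = 0) with hJdef
  have hJ : ∀ j, j ∈ J ↔ τ j = 0 := by
    intro j
    rw [hJdef, Finset.mem_filter]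
    exact ⟨fun h => h.2, fun h => ⟨Finset.mem_univ _, h⟩⟩
  have hbig : ∀ v ∈ F, ∀ j, τ j = 0 → w ≤ (pf v j : ℝ) ∧ u j = Nat.log 2 (pf v j) := by
    intro v hvF j hj
    obtain ⟨-, -, -, -, a5, -, a7, a8⟩ := hv v hvF
    have b7 := a7 j
    have b8 := a8 j
    by_cases hlt : (pf v j : ℝ) < w
    · rw [if_pos hlt, hj] at b7
      have := a5.one_le j
      omega
    · rw [if_neg hlt] at b8
      exact ⟨not_lt.mp hlt, b8.symm⟩
  have hsmall : ∀ v ∈ F, ∀ j, τ j ≠ 0 → pf v j = τ j := by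
    intro v hvF j hj
    obtain ⟨-, -, -, -, -, -, a7, -⟩ := hv v hvF
    have b7 := a7 j
    by_cases hlt : (pf v j : ℝ) < w
    · rw [if_pos hlt] at b7
      exact b7
    · rw [if_neg hlt] at b7
      exact absurd b7.symm hj
  have hprime : ∀ v ∈ F, ∀ j, τ j = 0 → pf v j ≠ 1 ∧ (pf v j).Prime := by
    intro v hvF j hj
    obtain ⟨hwle, -⟩ := hbig v hvF j hj
    obtain ⟨-, -, -, -, a5, -⟩ := hv v hvF
    have h1 : pf v j ≠ 1 := by
      intro h
      rw [h, Nat.cast_one] at hwle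
      linarith only [hwle, hw]
    exact ⟨h1, Nat.prime_of_mem_primeFactors (a5.pf j h1).1⟩
  have hPle : ∀ v ∈ F, ∀ j, τ j = 0 → 2 ^ u j ≤ pf v j ∧ pf v j < 2 * 2 ^ u j ∧ 2 ≤ 2 ^ u j := by
    intro v hvF j hj
    obtain ⟨-, hu⟩ := hbig v hvF j hj
    obtain ⟨-, hpr⟩ := hprime v hvF j hj
    have h0 : pf v j ≠ 0 := hpr.ne_zero
    rw [hu]
    refine ⟨Nat.pow_log_le_self 2 h0, ?_, ?_⟩
    · have := Nat.lt_pow_succ_log_self (b := 2) (by norm_num) (pf v j)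
      rw [pow_succ, mul_comm] at this
      exact this
    · have h1 : 1 ≤ Nat.log 2 (pf v j) := Nat.log_pos (by norm_num) hpr.two_le
      calc 2 = 2 ^ 1 := (pow_one 2).symm
        _ ≤ 2 ^ Nat.log 2 (pf v j) := Nat.pow_le_pow_right (by norm_num) h1
  have hnotM : ∀ v ∈ F, ∀ j, ∀ l ∈ M, ¬ l ∣ pf v j := by
    intro v hvF j l hl hdvd
    obtain ⟨-, -, -, a4, a5, -⟩ := hv v hvF
    by_cases h1 : pf v j = 1
    · rw [h1, Nat.dvd_one] at hdvd
      exact (hGM.pr l hl).1.ne_one hdvd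
    · exact a4.2 l hl (hdvd.trans (Nat.dvd_of_mem_primeFactors (a5.pf j h1).1))
  obtain ⟨-, b2, -, b4, b5, b6, -, -⟩ := hv v0 hv0
  set U : Fin k → Finset ℕ := fun j => if τ j = 0 then
    (Finset.range (2 * 2 ^ u j)).filter (fun q => q.Prime ∧ 2 ^ u j ≤ q ∧ q ∉ M) else {τ j}
    with hUdef
  have hU0 : ∀ j, τ j = 0 → ∀ q, q ∈ U j ↔ (q < 2 * 2 ^ u j ∧ q.Prime ∧ 2 ^ u j ≤ q ∧ q ∉ M) := by
    intro j hj q
    simp only [hUdef]
    rw [if_pos hj, Finset.mem_filter, Finset.mem_range]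
  have hU1 : ∀ j, τ j ≠ 0 → U j = {τ j} := by
    intro j hj
    simp only [hUdef]
    rw [if_neg hj]
  have hPX : ∏ j ∈ J, (((2 ^ u j : ℕ)) : ℝ) ≤ X := by
    have h1 : ∏ j ∈ J, (2 ^ u j : ℕ) ≤ ∏ j ∈ J, pf v0 j :=
      Finset.prod_le_prod' (fun j hj => (hPle v0 hv0 j ((hJ j).mp hj)).1)
    have h2 : ∏ j ∈ J, pf v0 j ≤ ∏ j, pf v0 j :=
      Finset.prod_le_prod_of_subset_of_one_le' (Finset.subset_univ J)
        (fun j _ _ => b5.one_le j)
    have h3 : ((∏ j ∈ J, (2 ^ u j : ℕ) : ℕ) : ℝ) ≤ ((RR v0 : ℕ) : ℝ) := by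
      rw [b5.rr]
      exact_mod_cast h1.trans h2
    rw [Nat.cast_prod] at h3
    exact h3.trans b2
  have hPY : ∏ j ∈ J.filter (fun j => tt j = i0), (((2 ^ u j : ℕ)) : ℝ) ≤ Y := by
    have h1 : ∏ j ∈ J.filter (fun j => tt j = i0), (2 ^ u j : ℕ) ≤
        ∏ j ∈ J.filter (fun j => tt j = i0), pf v0 j :=
      Finset.prod_le_prod' (fun j hj =>
        (hPle v0 hv0 j ((hJ j).mp (Finset.mem_filter.mp hj).1)).1)
    have h2 : ∏ j ∈ J.filter (fun j => tt j = i0), pf v0 j ≤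
        ∏ j ∈ univ.filter (fun j => tt j = i0), pf v0 j :=
      Finset.prod_le_prod_of_subset_of_one_le'
        (Finset.filter_subset_filter _ (Finset.subset_univ J)) (fun j _ _ => b5.one_le j)
    have h3 : ((∏ j ∈ J.filter (fun j => tt j = i0), (2 ^ u j : ℕ) : ℕ) : ℝ) ≤
        ((rad (coord v0 i0) : ℕ) : ℝ) := by
      rw [b5.ra i0]
      exact_mod_cast h1.trans h2
    rw [Nat.cast_prod] at h3
    exact h3.trans b5.yy
  have hmain := hF k e M tt r (fun j => 2 ^ u j) U J T i0 (y ^ σ) Φ X hGM.e0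
    (fun l hl => ⟨(hGM.pr l hl).1, (hGM.pr l hl).2.1⟩) (by linarith only [h64]) hΦ
    (by
      intro j hj
      have hj' : τ j ≠ 0 := fun h => hj ((hJ j).mpr h)
      rw [hU1 j hj', Finset.card_singleton])
    (by
      intro j hj
      have hj' := (hJ j).mp hj
      refine ⟨(hPle v0 hv0 j hj').2.2, ?_⟩
      intro q hq
      obtain ⟨c1, c2, c3, -⟩ := (hU0 j hj' q).mp hq
      exact ⟨c2, c3, c1⟩)
    (by
      intro j q hq l hl hdvd
      by_cases hj : τ j = 0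
      · obtain ⟨-, c2, -, c4⟩ := (hU0 j hj q).mp hq
        have hlq := (Nat.prime_dvd_prime_iff_eq (hGM.pr l hl).1 c2).mp hdvd
        rw [hlq] at hl
        exact c4 hl
      · rw [hU1 j hj, Finset.mem_singleton] at hq
        rw [hq, ← hsmall v0 hv0 j hj] at hdvd
        exact hnotM v0 hv0 j l hl hdvd)
    (by
      intro j hj
      have hj' := (hJ j).mp hj
      obtain ⟨hne, -⟩ := hprime v0 hv0 j hj'
      obtain ⟨d1, d2⟩ := b5.pf j hne
      have h1 : Nat.gcd (r j) e = Nat.gcd ((nn v0).factorization (pf v0 j)) e := by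
        rw [← b6 j, ← d2, Nat.gcd_comm, Nat.gcd_comm (xf v0 j) e, Nat.gcd_rec e (xf v0 j),
          Nat.gcd_comm]
      rw [h1]
      exact (b4.1 _ d1).le)
    hPX
    (by
      intro j hj t ht htX
      have hj' := (hJ j).mp hj
      obtain ⟨f1, f2, -⟩ := hPle v0 hv0 j hj'
      have g1 : w ≤ 2 * ((2 ^ u j : ℕ) : ℝ) := by
        have h1 : (pf v0 j : ℝ) ≤ ((2 * 2 ^ u j : ℕ) : ℝ) := by exact_mod_cast f2.le
        have h2 := (hbig v0 hv0 j hj').1
        push_cast at h1 ⊢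
        linarith only [h1, h2]
      have g2 : ((2 ^ u j : ℕ) : ℝ) ≤ X := by
        have h1 : pf v0 j ≤ ∏ i, pf v0 i :=
          Finset.single_le_prod' (f := fun i => pf v0 i) (fun i _ => b5.one_le i)
            (Finset.mem_univ j)
        have h2 : ((2 ^ u j : ℕ) : ℝ) ≤ ((RR v0 : ℕ) : ℝ) := by
          rw [b5.rr]
          exact_mod_cast f1.trans h1
        exact h2.trans b2
      obtain ⟨k1, k2⟩ := hnum (2 ^ u j) t ht g1 g2 htX
      exact ⟨k1.trans hGM.lo, k2⟩)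
    (by
      intro p hp
      rw [hTdef, Finset.mem_image] at hp
      obtain ⟨v, hvF, rfl⟩ := hp
      obtain ⟨-, -, -, -, a5, a6, -, -⟩ := hv v hvF
      refine ⟨?_, xf v, ?_, ?_⟩
      · intro j
        by_cases hj : τ j = 0
        · obtain ⟨f1, f2, -⟩ := hPle v hvF j hj
          refine (hU0 j hj _).mpr ⟨f2, (hprime v hvF j hj).2, f1, ?_⟩
          intro hM
          exact hnotM v hvF j _ hM dvd_rfl
        · rw [hU1 j hj, Finset.mem_singleton]
          exact hsmall v hvF j hj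
      · intro j
        rw [← a6 j, Nat.mod_mod]
      · rw [← a5.co 0, ← a5.co 1, ← a5.co 2]
        rfl)
  have hlast : (T.card : ℝ) ≤ 4 * Φ * (∏ l ∈ M, (((l - 1) / e : ℕ) : ℝ)) ^ 2 *
      (y ^ σ) ^ M.card * Real.sqrt (X * Y) := by
    refine hmain.trans ?_
    apply mul_le_mul_of_nonneg_left _ (by positivity)
    apply Real.sqrt_le_sqrt
    exact mul_le_mul_of_nonneg_left hPY (by linarith only [hX])
  calc (F.card : ℝ) ≤ T.card * Ct ^ (k + 1) := hfib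
    _ = Ct ^ (k + 1) * T.card := mul_comm _ _
    _ ≤ _ := mul_le_mul_of_nonneg_left hlast (pow_nonneg hCt0.le _)

/-- the final numerical estimate; `L` stands for `log (X H)` -/
lemma fin {L Ct A1 C1 y e w u S Q D2 X ε : ℝ} {k : ℕ} (hk : 1 ≤ k) (hL : 16 ≤ L) (hLC : Ct ≤ L)
    (hCt : 1 ≤ Ct) (hA1 : 1 ≤ A1) (hC1 : 1 ≤ C1) (hy1 : 1 ≤ y) (hy : y ≤ L ^ A1) (he0 : 0 ≤ e)
    (he : e ≤ 8 * y) (hw0 : 0 ≤ w) (hw : w ≤ L ^ C1 + 1) (hu0 : 0 ≤ u) (hu : u ≤ 3 * L)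
    (hX : 1 ≤ X) (hε : 0 < ε) (hS : 0 ≤ S) (hD2 : D2 ≤ X ^ (ε / 4) * y ^ (4 : ℝ))
    (_ : 0 ≤ D2)
    (hQ : Q = (3 * (3 * (e * (w * u))) ^ k) * (Ct ^ (k + 1) * (4 * X ^ (ε / 4) * D2 * S))) :
    Q ≤ X ^ ε * S * L ^ ((5 * A1 + C1 + 9) * k) := by
  have hL0 : 0 < L := by linarith only [hL]
  have hL1 : 1 ≤ L := by linarith only [hL]
  have hX0 : 0 < X := by linarith only [hX]
  have hk' : (1 : ℝ) ≤ k := by exact_mod_cast hk
  have hy0 : 0 < y := by linarith only [hy1]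
  -- the factor of the codes
  have h1 : e ≤ L ^ (A1 + 1) := by
    rw [Real.rpow_add hL0, Real.rpow_one]
    have hp : 0 < L ^ A1 := Real.rpow_pos_of_pos hL0 _
    nlinarith only [he, hy, hL, hp]
  have h2 : w ≤ L ^ (C1 + 1) := by
    rw [Real.rpow_add hL0, Real.rpow_one]
    have hp : 1 ≤ L ^ C1 := Real.one_le_rpow hL1 (by linarith only [hC1])
    nlinarith only [hw, hL, hp]
  have h3 : u ≤ L ^ (2 : ℝ) := by
    have : L ^ (2 : ℝ) = L * L := by
      rw [show (2 : ℝ) = ((2 : ℕ) : ℝ) by norm_num, Real.rpow_natCast]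
      ring
    rw [this]
    nlinarith only [hu, hL]
  have h4 : 3 * (e * (w * u)) ≤ L ^ (A1 + C1 + 5) := by
    have : L ^ (A1 + C1 + 5) = L * (L ^ (A1 + 1) * (L ^ (C1 + 1) * L ^ (2 : ℝ))) := by
      rw [← Real.rpow_add hL0, ← Real.rpow_add hL0]
      nth_rewrite 2 [← Real.rpow_one L]
      rw [← Real.rpow_add hL0]
      congr 1
      ring
    rw [this]
    apply mul_le_mul (by linarith only [hL]) _ (by positivity) hL0.le
    exact mul_le_mul h1 (mul_le_mul h2 h3 hu0 (by positivity)) (by positivity) (by positivity)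
  have h5 : (3 * (e * (w * u))) ^ k ≤ L ^ ((A1 + C1 + 5) * k) := by
    rw [Real.rpow_mul hL0.le, Real.rpow_natCast]
    exact pow_le_pow_left₀ (by positivity) h4 k
  have h6 : Ct ^ (k + 1) ≤ L ^ ((2 : ℝ) * k) := by
    calc Ct ^ (k + 1) ≤ L ^ (k + 1) := pow_le_pow_left₀ (by linarith only [hCt]) hLC _
      _ ≤ L ^ (2 * k) := pow_le_pow_right₀ hL1 (by omega)
      _ = L ^ ((2 : ℝ) * k) := by
          rw [← Real.rpow_natCast]
          push_cast
          rfl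
  have h7 : (3 : ℝ) ≤ L ^ ((1 : ℝ) * k) := by
    calc (3 : ℝ) ≤ L := by linarith only [hL]
      _ = L ^ (1 : ℝ) := (Real.rpow_one L).symm
      _ ≤ L ^ ((1 : ℝ) * k) := Real.rpow_le_rpow_of_exponent_le hL1 (by linarith only [hk'])
  have h8 : 4 * y ^ (4 : ℝ) ≤ L ^ ((4 * A1 + 1) * k) := by
    have a1 : y ^ (4 : ℝ) ≤ L ^ (4 * A1) := by
      calc y ^ (4 : ℝ) ≤ (L ^ A1) ^ (4 : ℝ) := Real.rpow_le_rpow hy0.le hy (by norm_num)
        _ = L ^ (4 * A1) := by rw [← Real.rpow_mul hL0.le, mul_comm]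
    have a2 : 4 * y ^ (4 : ℝ) ≤ L ^ (4 * A1 + 1) := by
      rw [Real.rpow_add hL0, Real.rpow_one]
      have hp : 0 < L ^ (4 * A1) := Real.rpow_pos_of_pos hL0 _
      nlinarith only [a1, hL, hp]
    refine a2.trans (Real.rpow_le_rpow_of_exponent_le hL1 ?_)
    nlinarith only [hk', hA1]
  have h9 : L ^ ((5 * A1 + C1 + 9) * k) = L ^ ((1 : ℝ) * k) * L ^ ((A1 + C1 + 5) * k) *
      (L ^ ((2 : ℝ) * k) * L ^ ((4 * A1 + 1) * k)) := by
    rw [← Real.rpow_add hL0, ← Real.rpow_add hL0, ← Real.rpow_add hL0]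
    congr 1
    ring
  have h10 : X ^ (ε / 4) * X ^ (ε / 4) ≤ X ^ ε := by
    rw [← Real.rpow_add hX0]
    exact Real.rpow_le_rpow_of_exponent_le hX (by linarith only [hε])
  have hp1 : 0 < X ^ (ε / 4) := Real.rpow_pos_of_pos hX0 _
  have hp2 : 0 ≤ (3 * (e * (w * u))) ^ k := by positivity
  have hp3 : 0 ≤ Ct ^ (k + 1) := pow_nonneg (by linarith only [hCt]) _
  have hp4 : 0 ≤ L ^ ((A1 + C1 + 5) * k) := (Real.rpow_pos_of_pos hL0 _).le
  have hp5 : 0 ≤ L ^ ((1 : ℝ) * k) := (Real.rpow_pos_of_pos hL0 _).le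
  have hp6 : 0 ≤ L ^ ((2 : ℝ) * k) := (Real.rpow_pos_of_pos hL0 _).le
  have hp7 : 0 ≤ 4 * y ^ (4 : ℝ) := by positivity
  rw [hQ]
  calc 3 * (3 * (e * (w * u))) ^ k * (Ct ^ (k + 1) * (4 * X ^ (ε / 4) * D2 * S)) ≤
        3 * (3 * (e * (w * u))) ^ k * (Ct ^ (k + 1) *
          (4 * X ^ (ε / 4) * (X ^ (ε / 4) * y ^ (4 : ℝ)) * S)) := by
        apply mul_le_mul_of_nonneg_left _ (by positivity)
        apply mul_le_mul_of_nonneg_left _ hp3
        apply mul_le_mul_of_nonneg_right _ hS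
        exact mul_le_mul_of_nonneg_left hD2 (by positivity)
    _ = (X ^ (ε / 4) * X ^ (ε / 4)) * S * ((3 * (3 * (e * (w * u))) ^ k) *
          (Ct ^ (k + 1) * (4 * y ^ (4 : ℝ)))) := by ring
    _ ≤ (X ^ ε) * S * ((L ^ ((1 : ℝ) * k) * L ^ ((A1 + C1 + 5) * k)) *
          (L ^ ((2 : ℝ) * k) * L ^ ((4 * A1 + 1) * k))) := by
        apply mul_le_mul (mul_le_mul_of_nonneg_right h10 hS) _ (by positivity) (by positivity)
        apply mul_le_mul (mul_le_mul h7 h5 hp2 hp5) (mul_le_mul h6 h8 hp7 hp6) (by positivity)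
          (mul_nonneg hp5 hp4)
    _ = X ^ ε * S * L ^ ((5 * A1 + C1 + 9) * k) := by rw [h9]

end OneAux

open OneAux in
/-- module ONE -/
theorem one_thm (hF : S_FCD) (hR : S_REP) (hN : S_NUM) (hT : S_TOT) : S_ONE := by
  classical
  intro ε hε
  obtain ⟨C1, X1, hC1, hX1, hnum⟩ := hN (ε / 4) (by positivity)
  obtain ⟨Ct, hCt, htot⟩ := hT
  refine ⟨min (1 / 2) (ε / 64), by positivity, ?_, ?_⟩
  · exact lt_of_le_of_lt (min_le_left _ _) (by norm_num)
  intro A1 hA1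
  refine ⟨5 * A1 + C1 + 9, max X1 (Real.exp (max 16 Ct)), by linarith only [hA1, hC1],
    le_max_of_le_left hX1, ?_⟩
  intro X H Y y k e M F hX hH hY hk h64 hyX hyL hGM hv
  set σ : ℝ := min (1 / 2) (ε / 64) with hσdef
  have hσ0 : 0 < σ := by positivity
  have hσ1 : σ ≤ 1 / 2 := min_le_left _ _
  have hσ2 : σ ≤ ε / 64 := min_le_right _ _
  have hXX1 : X1 ≤ X := (le_max_left _ _).trans hX
  have hXe : Real.exp (max 16 Ct) ≤ X := (le_max_right _ _).trans hX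
  have hX0 : 0 < X := (Real.exp_pos _).trans_le hXe
  have hlX : max 16 Ct ≤ Real.log X := by
    rw [Real.le_log_iff_exp_le hX0]
    exact hXe
  have hlX16 : 16 ≤ Real.log X := (le_max_left _ _).trans hlX
  have hlXC : Ct ≤ Real.log X := (le_max_right _ _).trans hlX
  have hX1' : 1 ≤ X := by linarith only [hX1, hXX1]
  have hXH : X ≤ X * H := by nlinarith only [hX0, hH]
  have hlL : Real.log X ≤ Real.log (X * H) := Real.log_le_log hX0 hXH
  have hL16 : 16 ≤ Real.log (X * H) := hlX16.trans hlL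
  have hLC : Ct ≤ Real.log (X * H) := hlXC.trans hlL
  have hy1 : 1 ≤ y := by linarith only [hlX16, hyX]
  set w : ℝ := Real.log X ^ C1 with hwdef
  have hw : 1 < w := by
    rw [hwdef]
    exact Real.one_lt_rpow (by linarith only [hlX16]) (by linarith only [hC1])
  -- the data of the triples
  have hdat : ∀ v : ℕ × ℕ, ∃ (p x : Fin k → ℕ) (tt : Fin k → Fin 3) (i0 : Fin 3), v ∈ F →
      Dat k Y v p x tt i0 := by
    intro v
    by_cases hvF : v ∈ F
    · obtain ⟨a1, a2, ⟨i0, hi0⟩, a4, a5⟩ := hv v hvF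
      obtain ⟨p, x, tt, b1, b2, b3, b4⟩ := hR k v a1 a4
      exact ⟨p, x, tt, i0, fun _ => ⟨b1, b2, b3, b4, hi0⟩⟩
    · exact ⟨fun _ => 0, fun _ => 0, fun _ => 0, 0, fun h => absurd h hvF⟩
  choose pf xf tf idx hD using hdat
  set cst : Finset (Fin 3 × (Fin k → Fin 3 × ℕ × ℕ × ℕ)) :=
    (univ : Finset (Fin 3)) ×ˢ (Fintype.piFinset (fun _ : Fin k => (univ : Finset (Fin 3)) ×ˢ
      (range e ×ˢ (range (⌊w⌋₊ + 1) ×ˢ range (⌊Real.log X / Real.log 2⌋₊ + 1))))) with hcst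
  set code : ℕ × ℕ → Fin 3 × (Fin k → Fin 3 × ℕ × ℕ × ℕ) := fun v =>
    (idx v, fun j => (tf v j, xf v j % e, (if (pf v j : ℝ) < w then pf v j else 0),
      (if (pf v j : ℝ) < w then 0 else Nat.log 2 (pf v j)))) with hcode
  have hlog2 : 0 < Real.log 2 := Real.log_pos (by norm_num)
  have hmaps : ∀ v ∈ F, code v ∈ cst := by
    intro v hvF
    obtain ⟨a1, a2, -, -, -⟩ := hv v hvF
    have hd := hD v hvF
    rw [hcst, Finset.mem_product]
    refine ⟨Finset.mem_univ _, ?_⟩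
    rw [Fintype.mem_piFinset]
    intro j
    simp only [hcode, Finset.mem_product, Finset.mem_univ, Finset.mem_range, true_and]
    refine ⟨Nat.mod_lt _ hGM.e0, ?_, ?_⟩
    · by_cases hlt : (pf v j : ℝ) < w
      · rw [if_pos hlt, Nat.lt_succ_iff]
        exact Nat.le_floor hlt.le
      · rw [if_neg hlt]
        exact Nat.succ_pos _
    · by_cases hlt : (pf v j : ℝ) < w
      · rw [if_pos hlt]
        exact Nat.succ_pos _
      · rw [if_neg hlt, Nat.lt_succ_iff]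
        apply Nat.le_floor
        rw [le_div_iff₀ hlog2]
        have h1 : pf v j ≤ ∏ i, pf v i :=
          Finset.single_le_prod' (f := fun i => pf v i) (fun i _ => hd.one_le i)
            (Finset.mem_univ j)
        have h2 : ((2 ^ Nat.log 2 (pf v j) : ℕ) : ℝ) ≤ ((RR v : ℕ) : ℝ) := by
          rw [hd.rr]
          have h0 : pf v j ≠ 0 := by
            have := hd.one_le j
            omega
          exact_mod_cast (Nat.pow_log_le_self 2 h0).trans h1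
        have h3 : ((2 ^ Nat.log 2 (pf v j) : ℕ) : ℝ) ≤ X := h2.trans a2
        rw [← Real.log_pow]
        apply Real.log_le_log (by positivity)
        push_cast at h3
        exact h3
  have hcl : ∀ c ∈ cst, ((F.filter (fun v => code v = c)).card : ℝ) ≤
      Ct ^ (k + 1) * (4 * X ^ (ε / 4) * (∏ l ∈ M, (((l - 1) / e : ℕ) : ℝ)) ^ 2 *
        (y ^ σ) ^ M.card * Real.sqrt (X * Y)) := by
    rintro ⟨i0, c⟩ -
    set tt : Fin k → Fin 3 := fun j => (c j).1 with htt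
    have hsub : ∀ v ∈ F.filter (fun v => code v = (i0, c)), v ∈ F ∧ idx v = i0 ∧
        (fun j => (tf v j, xf v j % e, (if (pf v j : ℝ) < w then pf v j else 0),
          (if (pf v j : ℝ) < w then 0 else Nat.log 2 (pf v j)))) = c := by
      intro v hvm
      rw [Finset.mem_filter] at hvm
      obtain ⟨h1, h2⟩ := hvm
      simp only [hcode, Prod.mk.injEq] at h2
      exact ⟨h1, h2.1, h2.2⟩
    refine cls (tt := tt) (i0 := i0) (w := w) hCt htot hF _ pf xf (fun j => (c j).2.1)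
      (fun j => (c j).2.2.1) (fun j => (c j).2.2.2) hw h64 hGM
      (Real.one_le_rpow hX1' (by positivity)) hX1' ?_ ?_
    · intro P t ht h1 h2 h3
      exact hnum X P t hXX1 ht h1 h2 h3
    · intro v hvm
      obtain ⟨hvF, hi, hc⟩ := hsub v hvm
      obtain ⟨a1, a2, -, a4, a5⟩ := hv v hvF
      have hd := hD v hvF
      rw [hi] at hd
      have htf : tf v = tt := by
        funext j
        have := congrFun hc j
        simp only [htt, ← this]
      rw [htf] at hd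
      refine ⟨a1, a2, a4, a5, hd, ?_, ?_, ?_⟩
      · intro j
        simp only [← hc]
      · intro j
        simp only [← hc]
      · intro j
        simp only [← hc]
  have hcount := card_le_real F cst code hmaps _ hcl
  have hcard : (cst.card : ℝ) = 3 * (3 * ((e : ℝ) * (((⌊w⌋₊ + 1 : ℕ) : ℝ) *
      ((⌊Real.log X / Real.log 2⌋₊ + 1 : ℕ) : ℝ)))) ^ k := by
    rw [hcst, Finset.card_product, Fintype.card_piFinset]
    simp only [Finset.card_product, Finset.card_univ, Fintype.card_fin, Finset.card_range,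
      Finset.prod_const]
    push_cast
    ring
  have hdg := dg hGM h64 hy1 hσ0 hX0
  have hD2 : (∏ l ∈ M, (((l - 1) / e : ℕ) : ℝ)) ^ 2 * (y ^ σ) ^ M.card ≤
      X ^ (ε / 4) * y ^ (4 : ℝ) := by
    refine hdg.trans ?_
    apply mul_le_mul
    · exact Real.rpow_le_rpow_of_exponent_le hX1' (by linarith only [hσ2])
    · exact Real.rpow_le_rpow_of_exponent_le hy1 (by linarith only [hσ1])
    · exact (Real.rpow_pos_of_pos (by linarith only [hy1]) _).le
    · exact (Real.rpow_pos_of_pos hX0 _).le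
  refine hcount.trans ?_
  refine fin (Ct := Ct) (A1 := A1) (C1 := C1) (y := y) (e := e)
    (w := ((⌊w⌋₊ + 1 : ℕ) : ℝ)) (u := ((⌊Real.log X / Real.log 2⌋₊ + 1 : ℕ) : ℝ))
    (D2 := (∏ l ∈ M, (((l - 1) / e : ℕ) : ℝ)) ^ 2 * (y ^ σ) ^ M.card) hk hL16 hLC hCt hA1 hC1
    hy1 hyL (Nat.cast_nonneg _) hGM.e8 (Nat.cast_nonneg _) ?_ (Nat.cast_nonneg _) ?_ hX1' hε
    (Real.sqrt_nonneg _) hD2 (by positivity) ?_
  · push_cast
    have h1 : (⌊w⌋₊ : ℝ) ≤ w := Nat.floor_le (by linarith only [hw])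
    have h2 : w ≤ Real.log (X * H) ^ C1 :=
      Real.rpow_le_rpow (by linarith only [hlX16]) hlL (by linarith only [hC1])
    linarith only [h1, h2]
  · push_cast
    have h0 : 0 ≤ Real.log X / Real.log 2 := div_nonneg (by linarith only [hlX16]) hlog2.le
    have h1 : (⌊Real.log X / Real.log 2⌋₊ : ℝ) ≤ Real.log X / Real.log 2 := Nat.floor_le h0
    have h2 : Real.log X / Real.log 2 ≤ 2 * Real.log X := by
      rw [div_le_iff₀ hlog2]
      have := Real.log_two_gt_d9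
      nlinarith only [this, hlX16]
    linarith only [h1, h2, hlL, hlX16]
  · rw [hcard]
    ring

end Pool.FEW
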